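import Pool.Agent.H29.HK.AI

/-!
# HK project: PE (splitting of primes in a fixed field)
-/

set_option autoImplicit false
set_option linter.unusedSectionVars false

open NumberField IntermediateField
open scoped Pointwise

namespace Pool.Agent.H29.HK

open Pool.Agent.H25.HK Pool.Agent.H25

/-! ### Elements acting as a power map modulo a prime -/

section loc

variable {A B Γ : Type} [CommRing A] [CommRing B] [Algebra A B] [Group Γ]
  [MulSemiringAction Γ B]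

variable (Γ) in
/-- the elements of `Γ` acting as `x ↦ x ^ n` modulo `Q` -/
def frs (Q : Ideal B) (n : ℕ) : Set Γ := {h | ∀ x : B, h • x - x ^ n ∈ Q}

lemma mem_inert {Q : Ideal B} {g : Γ} : g ∈ Q.inertia Γ ↔ ∀ x : B, g • x - x ∈ Q :=
  AddSubgroup.mem_inertia

lemma mul_mem_frs {Q : Ideal B} {n : ℕ} {h i : Γ} (hs : h • Q = Q) (hh : h ∈ frs Γ Q n)
    (hi : i ∈ Q.inertia Γ) : h * i ∈ frs Γ Q n := by
  intro x
  have h1 : (h * i) • x - x ^ n = h • (i • x - x) + (h • x - x ^ n) := by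
    rw [smul_sub, mul_smul]
    ring
  rw [h1]
  refine Q.add_mem ?_ (hh x)
  rw [← hs]
  exact Ideal.smul_mem_pointwise_smul _ _ _ (mem_inert.1 hi x)

lemma inv_mul_mem_inert {Q : Ideal B} {n : ℕ} {h t : Γ} (hs : h • Q = Q) (hh : h ∈ frs Γ Q n)
    (ht : t ∈ frs Γ Q n) : h⁻¹ * t ∈ Q.inertia Γ := by
  rw [mem_inert]
  intro x
  have h1 : (h⁻¹ * t) • x - x = h⁻¹ • ((t • x - x ^ n) - (h • x - x ^ n)) := by
    rw [smul_sub, smul_sub, smul_sub, mul_smul, inv_smul_smul]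
    ring
  rw [h1]
  have hs' : h⁻¹ • Q = Q := by rw [inv_smul_eq_iff, hs]
  rw [← hs']
  exact Ideal.smul_mem_pointwise_smul _ _ _ (Q.sub_mem (ht x) (hh x))

/-- the elements acting as a given power map form a coset of the inertia group -/
def frsEquiv (Q : Ideal B) (n : ℕ) (h : Γ) (hs : h • Q = Q) (hh : h ∈ frs Γ Q n) :
    (Q.inertia Γ) ≃ (frs Γ Q n) where
  toFun i := ⟨h * i, mul_mem_frs hs hh i.2⟩
  invFun t := ⟨h⁻¹ * t, inv_mul_mem_inert hs hh t.2⟩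
  left_inv i := by simp
  right_inv t := by simp

lemma finite_field_dvd {E : Type} [Field E] [Finite E] (p f k : ℕ) (hp : p.Prime)
    (hcard : Nat.card E = p ^ f) (h : ∀ z : E, z ^ p ^ k = z) : f ∣ k := by
  have : Fact p.Prime := ⟨hp⟩
  have := Fintype.ofFinite E
  rw [Nat.card_eq_fintype_card] at hcard
  have : CharP E p := charP_of_card_eq_prime_pow hcard
  let _ : Algebra (ZMod p) E := ZMod.algebra E p
  have h1 : Module.finrank (ZMod p) E = f := by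
    have h2 := Module.card_eq_pow_finrank (K := ZMod p) (V := E)
    rw [hcard, ZMod.card] at h2
    exact (Nat.pow_right_injective hp.two_le h2).symm
  rw [← h1, ← FiniteField.orderOf_frobeniusAlgEquivOfAlgebraic (ZMod p) E, orderOf_dvd_iff_pow_eq_one]
  ext z
  rw [AlgEquiv.coe_pow, FiniteField.coe_frobeniusAlgEquivOfAlgebraic_iterate, ZMod.card]
  exact h z

lemma card_frs [Finite Γ] [IsGaloisGroup Γ A B] (q : Ideal A) (Q : Ideal B) [q.IsMaximal]
    [Q.IsMaximal] [Q.LiesOver q] (p f k : ℕ) (hp : p.Prime) (hcard : Nat.card (A ⧸ q) = p ^ f) :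
    Nat.card (frs Γ Q (p ^ k)) = if f ∣ k then Nat.card (Q.inertia Γ) else 0 := by
  have hfin : Finite (A ⧸ q) := Nat.finite_of_card_ne_zero (by
    rw [hcard]
    exact pow_ne_zero _ hp.ne_zero)
  have := Fintype.ofFinite (A ⧸ q)
  let _ : Field (A ⧸ q) := Ideal.Quotient.field q
  let _ : Field (B ⧸ Q) := Ideal.Quotient.field Q
  split_ifs with hfk
  · obtain ⟨j, hj⟩ := hfk
    have hint : Algebra.IsIntegral A B := Algebra.IsInvariant.isIntegral A B Γ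
    have halg : Algebra.IsAlgebraic (A ⧸ q) (B ⧸ Q) := by
      have h1 : Algebra.IsIntegral (A ⧸ q) (B ⧸ Q) := inferInstance
      exact h1.isAlgebraic
    set τ := (FiniteField.frobeniusAlgEquivOfAlgebraic (A ⧸ q) (B ⧸ Q)) ^ j with hτ
    have hτx : ∀ z, τ z = z ^ p ^ k := by
      intro z
      rw [hτ, AlgEquiv.coe_pow, FiniteField.coe_frobeniusAlgEquivOfAlgebraic_iterate,
        ← Nat.card_eq_fintype_card, hcard, ← pow_mul, ← hj]
    obtain ⟨g, hg⟩ := Ideal.Quotient.stabilizerHom_surjective Γ q Q τ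
    have hgf : (g : Γ) ∈ frs Γ Q (p ^ k) := by
      intro x
      rw [← Ideal.Quotient.eq, map_pow, ← hτx, ← hg]
      exact (Ideal.Quotient.stabilizerHom_apply Q q Γ g x).symm
    exact (Nat.card_congr (frsEquiv Q (p ^ k) (g : Γ) g.2 hgf)).symm
  · have hempty : IsEmpty (frs Γ Q (p ^ k)) := by
      refine ⟨fun h => hfk ?_⟩
      apply finite_field_dvd p f k hp hcard
      intro z
      obtain ⟨a, rfl⟩ := Ideal.Quotient.mk_surjective z
      have h1 := h.2 (algebraMap A B a)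
      rw [smul_algebraMap, ← map_pow, ← map_sub] at h1
      have h2 : a - a ^ p ^ k ∈ q := by
        rw [Ideal.over_def Q q]
        exact h1
      rw [← Ideal.Quotient.eq, map_pow] at h2
      exact h2.symm
    exact Nat.card_of_isEmpty

end loc

/-! ### Orbits -/

lemma sum_orbit {G X : Type} [Group G] [Fintype G] [MulAction G X] [DecidableEq X] (x : X)
    (N : X → ℕ) (S : Finset X) (hS : ∀ y, y ∈ S ↔ ∃ g : G, g • x = y) :
    ∑ g : G, N (g⁻¹ • x) = Nat.card (MulAction.stabilizer G x) * ∑ y ∈ S, N y := by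
  have h0 : ∑ g : G, N (g⁻¹ • x) = ∑ g : G, N (g • x) :=
    Equiv.sum_comp (Equiv.inv G) (fun g => N (g • x))
  rw [h0, ← Finset.sum_fiberwise_of_maps_to (s := Finset.univ) (t := S) (g := fun g : G => g • x)
    (fun g _ => (hS _).2 ⟨g, rfl⟩), Finset.mul_sum]
  refine Finset.sum_congr rfl fun y hy => ?_
  obtain ⟨g0, hg0⟩ := (hS y).1 hy
  have h1 : ∀ g ∈ Finset.univ.filter (fun g : G => g • x = y), N (g • x) = N y := by
    intro g hg
    rw [(Finset.mem_filter.1 hg).2]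
  rw [Finset.sum_congr rfl h1, Finset.sum_const, smul_eq_mul]
  congr 1
  rw [← Fintype.card_subtype, ← Nat.card_eq_fintype_card]
  refine Nat.card_congr {
    toFun := fun g => ⟨g0⁻¹ * g.1, ?_⟩
    invFun := fun g => ⟨g0 * g.1, ?_⟩
    left_inv := fun g => by simp
    right_inv := fun g => by simp }
  · rw [MulAction.mem_stabilizer_iff, mul_smul, g.2, ← hg0, inv_smul_smul]
  · rw [mul_smul, MulAction.mem_stabilizer_iff.1 g.2, hg0]

/-! ### Number fields -/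

section nf

variable {K : Type} [Field K] [NumberField K] [IsGalois ℚ K] (H : Subgroup (K ≃ₐ[ℚ] K))

instance galInst1 : IsGaloisGroup H (fixedField H : IntermediateField ℚ K) K :=
  inferInstanceAs (IsGaloisGroup H (FixedPoints.intermediateField H : IntermediateField ℚ K) K)

instance galInst2 : IsGaloisGroup H (𝓞 (fixedField H : IntermediateField ℚ K)) (𝓞 K) :=
  IsGaloisGroup.of_isFractionRing H (𝓞 (fixedField H : IntermediateField ℚ K)) (𝓞 K)
    (fixedField H : IntermediateField ℚ K) K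

/-- double counting -/
def dcEquiv (P : Ideal (𝓞 K)) (n : ℕ) (F : K ≃ₐ[ℚ] K) (hs : F • P = P)
    (hF : F ∈ frs (K ≃ₐ[ℚ] K) P n) :
    (Σ g : P.inertia (K ≃ₐ[ℚ] K), {y : K ≃ₐ[ℚ] K // y⁻¹ * (F * g) * y ∈ H}) ≃
      (Σ y : K ≃ₐ[ℚ] K, frs H (y⁻¹ • P) n) where
  toFun a := ⟨a.2.1, ⟨⟨a.2.1⁻¹ * (F * a.1) * a.2.1, a.2.2⟩, by
    intro x
    have h1 : (⟨a.2.1⁻¹ * (F * a.1) * a.2.1, a.2.2⟩ : H) • x - x ^ n =
        a.2.1⁻¹ • ((F * (a.1 : K ≃ₐ[ℚ] K)) • (a.2.1 • x) - (a.2.1 • x) ^ n) := by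
      rw [smul_sub, smul_pow', inv_smul_smul, ← mul_smul, ← mul_smul]
      rfl
    rw [h1]
    exact Ideal.smul_mem_pointwise_smul _ _ _ (mul_mem_frs hs hF a.1.2 _)⟩⟩
  invFun b := ⟨⟨F⁻¹ * (b.1 * b.2.1 * b.1⁻¹), by
    apply inv_mul_mem_inert hs hF
    intro x
    have h1 : (b.1 * (b.2.1 : K ≃ₐ[ℚ] K) * b.1⁻¹) • x - x ^ n =
        b.1 • (b.2.1 • (b.1⁻¹ • x) - (b.1⁻¹ • x) ^ n) := by
      rw [smul_sub, smul_pow', smul_inv_smul, mul_smul, mul_smul]
      rfl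
    rw [h1]
    have h2 := Ideal.smul_mem_pointwise_smul b.1 _ _ (b.2.2 (b.1⁻¹ • x))
    rw [smul_inv_smul] at h2
    exact h2⟩, ⟨b.1, by
      have h3 : b.1⁻¹ * (F * (F⁻¹ * (b.1 * (b.2.1 : K ≃ₐ[ℚ] K) * b.1⁻¹))) * b.1 = b.2.1 := by
        group
      rw [h3]
      exact b.2.1.2⟩⟩
  left_inv a := by
    obtain ⟨⟨g, hg⟩, ⟨y, hy⟩⟩ := a
    have h3 : F⁻¹ * (y * (y⁻¹ * (F * g) * y) * y⁻¹) = g := by group
    exact Sigma.subtype_ext (Subtype.ext h3) rfl
  right_inv b := by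
    obtain ⟨y, ⟨⟨h, hh⟩, hb⟩⟩ := b
    have h3 : y⁻¹ * (F * (F⁻¹ * (y * h * y⁻¹))) * y = h := by group
    exact Sigma.subtype_ext rfl (Subtype.ext h3)

lemma frob_stab (P : Ideal (𝓞 K)) [hP : P.IsMaximal] (p : ℕ) (hp : p ≠ 0) (F : K ≃ₐ[ℚ] K)
    (hF : F ∈ frs (K ≃ₐ[ℚ] K) P p) : F • P = P := by
  have h1 : P = F⁻¹ • P := by
    apply hP.eq_of_le
    · intro h
      have h2 : (1 : 𝓞 K) ∈ F⁻¹ • P := by
        rw [h]
        exact Submodule.mem_top
      rw [Ideal.mem_pointwise_smul_iff_inv_smul_mem, inv_inv, smul_one] at h2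
      exact hP.ne_top ((Ideal.eq_top_iff_one P).2 h2)
    · intro x hx
      rw [Ideal.mem_pointwise_smul_iff_inv_smul_mem, inv_inv]
      have h2 : F • x = (F • x - x ^ p) + x ^ p := by ring
      rw [h2]
      exact P.add_mem (hF x) (P.pow_mem_of_mem hx p (Nat.pos_of_ne_zero hp))
  exact (inv_smul_eq_iff.1 h1.symm).symm

lemma frob_pow (P : Ideal (𝓞 K)) [hP : P.IsMaximal] (p : ℕ) (hp : p ≠ 0) (F : K ≃ₐ[ℚ] K)
    (hF : F ∈ frs (K ≃ₐ[ℚ] K) P p) (k : ℕ) :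
    F ^ k • P = P ∧ F ^ k ∈ frs (K ≃ₐ[ℚ] K) P (p ^ k) := by
  induction k with
  | zero =>
    refine ⟨by rw [pow_zero, one_smul], fun x => ?_⟩
    rw [pow_zero, pow_zero, pow_one, one_smul, sub_self]
    exact P.zero_mem
  | succ k ih =>
    refine ⟨by rw [pow_succ, mul_smul, frob_stab P p hp F hF, ih.1], fun x => ?_⟩
    have h1 : F ^ (k + 1) • x - x ^ p ^ (k + 1) =
        F ^ k • (F • x - x ^ p) + (F ^ k • x ^ p - (x ^ p) ^ p ^ k) := by
      rw [smul_sub, ← mul_smul, ← pow_succ, ← pow_mul, ← pow_succ']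
      ring
    rw [h1]
    refine P.add_mem ?_ (ih.2 _)
    rw [← ih.1]
    exact Ideal.smul_mem_pointwise_smul _ _ _ (hF x)

/-- the primes above `p` in a number field -/
noncomputable def pr (L : Type) [Field L] [NumberField L] (p : ℕ) [Fact p.Prime] :
    Finset (Ideal (𝓞 L)) :=
  (IsDedekindDomain.primesOver_finite (Ideal.span {(p : ℤ)}) (𝓞 L)).toFinset

lemma mem_pr {L : Type} [Field L] [NumberField L] {p : ℕ} [Fact p.Prime] {Q : Ideal (𝓞 L)} :
    Q ∈ pr L p ↔ Q.IsPrime ∧ Q.LiesOver (Ideal.span {(p : ℤ)}) :=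
  Set.Finite.mem_toFinset _

lemma pr_max {L : Type} [Field L] [NumberField L] {p : ℕ} [hp : Fact p.Prime] {Q : Ideal (𝓞 L)}
    (h : Q ∈ pr L p) : Q.IsMaximal := by
  have := (mem_pr.1 h).1
  have := (mem_pr.1 h).2
  exact Ideal.IsMaximal.of_liesOver_isMaximal Q (Ideal.span {(p : ℤ)})

lemma pr_card {L : Type} [Field L] [NumberField L] {p : ℕ} [hp : Fact p.Prime] {Q : Ideal (𝓞 L)}
    (h : Q ∈ pr L p) : Nat.card (𝓞 L ⧸ Q) = p ^ Q.inertiaDeg ℤ := by
  have := (mem_pr.1 h).1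
  have := (mem_pr.1 h).2
  have h1 := Ideal.absNorm_pow_inertiaDeg (Ideal.span {(p : ℤ)}) Q
  rw [Ideal.absNorm_span_singleton] at h1
  simp only [Algebra.norm_self, MonoidHom.id_apply, Int.natAbs_natCast] at h1
  rw [h1, Ideal.absNorm_apply, Submodule.cardQuot_apply]

lemma mem_pr_iff_orbit {p : ℕ} [hp : Fact p.Prime] {P : Ideal (𝓞 K)} (hP : P ∈ pr K p)
    (Q : Ideal (𝓞 K)) : Q ∈ pr K p ↔ ∃ g : K ≃ₐ[ℚ] K, g • P = Q := by
  have := (mem_pr.1 hP).1
  have := (mem_pr.1 hP).2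
  have h1 := Algebra.IsInvariant.orbit_eq_primesOver ℤ (𝓞 K) (K ≃ₐ[ℚ] K)
    (Ideal.span {(p : ℤ)}) P
  have h2 : Q ∈ pr K p ↔ Q ∈ (Ideal.span {(p : ℤ)}).primesOver (𝓞 K) := Set.Finite.mem_toFinset _
  rw [h2, ← h1]
  rfl

theorem pe_main {p : ℕ} [hp : Fact p.Prime] {P : Ideal (𝓞 K)} (hP : P ∈ pr K p)
    (F : K ≃ₐ[ℚ] K) (hF : F ∈ frs (K ≃ₐ[ℚ] K) P p) (k : ℕ) :
    ∑ᶠ g : P.inertia (K ≃ₐ[ℚ] K), pc H (F ^ k * g) = Nat.card (P.inertia (K ≃ₐ[ℚ] K)) *
      ∑ q ∈ pr (fixedField H : IntermediateField ℚ K) p,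
        if q.inertiaDeg ℤ ∣ k then q.inertiaDeg ℤ else 0 := by
  classical
  have := Fintype.ofFinite (P.inertia (K ≃ₐ[ℚ] K))
  have := Fintype.ofFinite H
  have hPmax := pr_max hP
  obtain ⟨hs, hFk⟩ := frob_pow P p hp.out.ne_zero F hF k
  rw [finsum_eq_sum_of_fintype]
  have hH0 : 0 < Nat.card H := Nat.card_pos
  apply Nat.eq_of_mul_eq_mul_left hH0
  -- double counting
  have e1 : Nat.card H * ∑ g : P.inertia (K ≃ₐ[ℚ] K), pc H (F ^ k * g) =
      ∑ y : K ≃ₐ[ℚ] K, Nat.card (frs H (y⁻¹ • P) (p ^ k)) := by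
    have h1 := Nat.card_congr (dcEquiv H P (p ^ k) (F ^ k) hs hFk)
    rw [Nat.card_sigma, Nat.card_sigma] at h1
    rw [← h1, Finset.mul_sum]
    exact Finset.sum_congr rfl fun g _ => (card_conj H (F ^ k * g)).symm
  rw [e1, sum_orbit P (fun Q => Nat.card (frs H Q (p ^ k))) (pr K p) (mem_pr_iff_orbit hP)]
  -- fibres
  set A := 𝓞 (fixedField H : IntermediateField ℚ K) with hA
  have hmaps : ∀ Q ∈ pr K p, Q.under A ∈ pr (fixedField H : IntermediateField ℚ K) p := by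
    intro Q hQ
    have := (mem_pr.1 hQ).1
    have := (mem_pr.1 hQ).2
    rw [mem_pr]
    refine ⟨inferInstance, ?_⟩
    exact Ideal.LiesOver.tower_bot Q (Q.under A) (Ideal.span {(p : ℤ)})
  rw [← Finset.sum_fiberwise_of_maps_to hmaps, Finset.mul_sum, Finset.mul_sum, Finset.mul_sum]
  refine Finset.sum_congr rfl fun q hq => ?_
  have hqp := (mem_pr.1 hq).1
  have hqo := (mem_pr.1 hq).2
  have hqmax := pr_max hq
  set S := (pr K p).filter (fun Q => Q.under A = q) with hS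
  have hSmem : ∀ Q ∈ S, Q.IsPrime ∧ Q.IsMaximal ∧ Q.LiesOver q ∧ Q ∈ pr K p := by
    intro Q hQ
    rw [hS, Finset.mem_filter] at hQ
    exact ⟨(mem_pr.1 hQ.1).1, pr_max hQ.1, ⟨hQ.2.symm⟩, hQ.1⟩
  have hScard : (q.primesOver (𝓞 K)).ncard = S.card := by
    rw [← Set.ncard_coe_finset]
    congr 1
    ext Q
    rw [Finset.mem_coe, hS, Finset.mem_filter, mem_pr]
    constructor
    · rintro ⟨h1, h2⟩
      exact ⟨⟨h1, Ideal.LiesOver.trans Q q (Ideal.span {(p : ℤ)})⟩, (Ideal.over_def Q q).symm⟩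
    · rintro ⟨⟨h1, h2⟩, h3⟩
      exact ⟨h1, ⟨h3.symm⟩⟩
  have hDcard : Nat.card (MulAction.stabilizer (K ≃ₐ[ℚ] K) P) =
      Nat.card (P.inertia (K ≃ₐ[ℚ] K)) * P.inertiaDeg ℤ := by
    have := (mem_pr.1 hP).2
    exact Ideal.card_stabilizer_eq_card_inertia_mul_finrank (Ideal.span {(p : ℤ)}) P
  by_cases hk : q.inertiaDeg ℤ ∣ k
  · rw [if_pos hk]
    have hterm : ∀ Q ∈ S, Nat.card (MulAction.stabilizer (K ≃ₐ[ℚ] K) P) *
        Nat.card (frs H Q (p ^ k)) = Nat.card (P.inertia (K ≃ₐ[ℚ] K)) * q.inertiaDeg ℤ *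
          (Nat.card H / S.card) := by
      intro Q hQ
      obtain ⟨h1, h2, h3, h4⟩ := hSmem Q hQ
      have hc : Nat.card (frs H Q (p ^ k)) = Nat.card (Q.inertia H) := by
        rw [card_frs q Q p (q.inertiaDeg ℤ) k hp.out (pr_card hq), if_pos hk]
      have hg := Ideal.ncard_primesOver_mul_card_inertia_mul_finrank (G := H) q Q
      rw [hScard] at hg
      obtain ⟨g, hgP⟩ := (mem_pr_iff_orbit hP Q).1 h4
      have hf : P.inertiaDeg ℤ = q.inertiaDeg ℤ * Q.inertiaDeg A := by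
        rw [← Ideal.inertiaDeg_tower q Q, ← hgP, Ideal.inertiaDeg_smul]
      have hSpos : 0 < S.card := Finset.card_pos.2 ⟨Q, hQ⟩
      have hdiv : Nat.card H / S.card = Nat.card (Q.inertia H) * Q.inertiaDeg A := by
        rw [← hg, mul_assoc, Nat.mul_div_cancel_left _ hSpos]
      rw [hDcard, hc, hf, hdiv]
      ring
    rw [Finset.mul_sum, Finset.sum_congr rfl hterm, Finset.sum_const, smul_eq_mul]
    have hdvd : S.card * (Nat.card H / S.card) = Nat.card H := by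
      obtain ⟨Q, hQ1, hQ2⟩ : ∃ Q : Ideal (𝓞 K), Q.IsPrime ∧ Q.LiesOver q := by
        obtain ⟨⟨Q, h⟩⟩ : Nonempty (q.primesOver (𝓞 K)) := inferInstance
        exact ⟨Q, h.1, h.2⟩
      have hg := Ideal.ncard_primesOver_mul_card_inertia_mul_finrank (G := H) q Q
      rw [hScard] at hg
      apply Nat.mul_div_cancel'
      rw [← hg, mul_assoc]
      exact dvd_mul_right _ _
    calc S.card * (Nat.card (P.inertia (K ≃ₐ[ℚ] K)) * q.inertiaDeg ℤ * (Nat.card H / S.card))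
        = Nat.card (P.inertia (K ≃ₐ[ℚ] K)) * q.inertiaDeg ℤ * (S.card * (Nat.card H / S.card)) := by
          ring
      _ = _ := by rw [hdvd]; ring
  · rw [if_neg hk, mul_zero, mul_zero]
    have hz : ∀ Q ∈ S, Nat.card (frs H Q (p ^ k)) = 0 := by
      intro Q hQ
      obtain ⟨h1, h2, h3, h4⟩ := hSmem Q hQ
      rw [card_frs q Q p (q.inertiaDeg ℤ) k hp.out (pr_card hq), if_neg hk]
    rw [Finset.sum_congr rfl hz, Finset.sum_const_zero, mul_zero]

end nf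

/-- PE -/
theorem pe : T_PE := by
  intro R H p k _
  classical
  have hp : Fact (p : ℕ).Prime := ⟨p.2⟩
  have hP : R.P p ∈ pr R.K p := by
    have := R.P_prime p
    rw [mem_pr]
    refine ⟨inferInstance, ⟨?_⟩⟩
    have hmax : (Ideal.span {((p : ℕ) : ℤ)}).IsMaximal := inferInstance
    apply hmax.eq_of_le
    · exact (Ideal.IsPrime.under ℤ (R.P p)).ne_top
    · rw [Ideal.span_singleton_le_iff_mem, Ideal.mem_comap]
      simpa using R.P_mem p
  have hmain := pe_main H hP (R.Fr p) (R.Fr_spec p) k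
  have := Fintype.ofFinite (R.In p)
  have hcard : (Nat.card (R.In p) : ℂ) ≠ 0 := Nat.cast_ne_zero.2 Nat.card_pos.ne'
  have hspf : spf (FF R H) p k = ∑ q ∈ pr (fixedField H : IntermediateField ℚ R.K) p,
        if q.inertiaDeg ℤ ∣ k then q.inertiaDeg ℤ else 0 := by
    unfold spf pr
    rw [finsum_mem_eq_finite_toFinset_sum]
  rw [hspf]
  have h2 : (∑ᶠ g : R.In p, (pc H (R.Fr p ^ k * (g : R.K ≃ₐ[ℚ] R.K)) : ℂ)) =
      ((∑ᶠ g : (R.P p).inertia (R.K ≃ₐ[ℚ] R.K), pc H (R.Fr p ^ k * g) : ℕ) : ℂ) := by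
    change _ = ((∑ᶠ g : R.In p, pc H (R.Fr p ^ k * (g : R.K ≃ₐ[ℚ] R.K)) : ℕ) : ℂ)
    rw [finsum_eq_sum_of_fintype, finsum_eq_sum_of_fintype, Nat.cast_sum]
  rw [h2, hmain, Nat.cast_mul]
  exact (inv_mul_cancel_left₀ hcard _).symm

end Pool.Agent.H29.HK
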