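import Pool.Agent.H25.HK.Targets

/-!
# HK project: AC (complex conjugation)
-/

set_option autoImplicit false
set_option linter.unusedSectionVars false

open NumberField NumberField.InfinitePlace IntermediateField

namespace Pool.Agent.H29.HK

open Pool.Agent.H25.HK Pool.Agent.H25

section

variable {K : Type} [Field K] [NumberField K] [IsGalois ℚ K]

lemma exists_conj (φ : K →+* ℂ) : ∃ c : K ≃ₐ[ℚ] K, ∀ x, φ (c x) = (starRingEnd ℂ) (φ x) := by
  let _ : Algebra K ℂ := φ.toAlgebra
  have : IsScalarTower ℚ K ℂ := IsScalarTower.of_algebraMap_eq' (Subsingleton.elim _ _)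
  refine ⟨(Complex.conjAe.restrictScalars ℚ).restrictNormal K, fun x => ?_⟩
  exact AlgEquiv.restrictNormal_commutes (Complex.conjAe.restrictScalars ℚ) K x

variable (φ : K →+* ℂ) (H : Subgroup (K ≃ₐ[ℚ] K))

/-- the embedding of the fixed field given by a coset -/
noncomputable def emb (q : (K ≃ₐ[ℚ] K) ⧸ H) : (fixedField H : IntermediateField ℚ K) →+* ℂ :=
  (φ.comp (q.out : K ≃ₐ[ℚ] K).toRingEquiv.toRingHom).comp (algebraMap (fixedField H) K)

lemma emb_apply (g : K ≃ₐ[ℚ] K) (x : (fixedField H : IntermediateField ℚ K)) :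
    emb φ H (g : (K ≃ₐ[ℚ] K) ⧸ H) x = φ (g x) := by
  obtain ⟨h, hh⟩ := QuotientGroup.mk_out_eq_mul H g
  have h1 : emb φ H (g : (K ≃ₐ[ℚ] K) ⧸ H) x =
      φ (((g : (K ≃ₐ[ℚ] K) ⧸ H).out : K ≃ₐ[ℚ] K) (x : K)) := rfl
  rw [h1, hh]
  have h2 : (h : K ≃ₐ[ℚ] K) (x : K) = x := (mem_fixedField_iff H (x : K)).1 x.2 h h.2
  rw [AlgEquiv.mul_apply, h2]

lemma emb_inj : Function.Injective (emb φ H) := by
  intro a b hab
  induction a using QuotientGroup.induction_on with
  | H g =>
    induction b using QuotientGroup.induction_on with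
    | H h =>
      rw [QuotientGroup.eq]
      have h1 : g⁻¹ * h ∈ fixingSubgroup (fixedField H : IntermediateField ℚ K) := by
        rw [IntermediateField.mem_fixingSubgroup_iff]
        intro x hx
        have h2 := RingHom.congr_fun hab ⟨x, hx⟩
        rw [emb_apply, emb_apply] at h2
        have h3 := φ.injective h2
        simp only at h3
        rw [AlgEquiv.mul_apply, ← h3]
        exact AlgEquiv.symm_apply_apply g x
      rwa [fixingSubgroup_fixedField] at h1

lemma card_quot : Module.finrank ℚ (fixedField H : IntermediateField ℚ K) =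
    Nat.card ((K ≃ₐ[ℚ] K) ⧸ H) := by
  have h1 := Module.finrank_mul_finrank ℚ (fixedField H : IntermediateField ℚ K) K
  rw [finrank_fixedField_eq_card, ← IsGalois.card_aut_eq_finrank ℚ K,
    Subgroup.card_eq_card_quotient_mul_card_subgroup H] at h1
  exact Nat.eq_of_mul_eq_mul_right Nat.card_pos h1

lemma emb_bij : Function.Bijective (emb φ H) := by
  have := Fintype.ofFinite ((K ≃ₐ[ℚ] K) ⧸ H)
  rw [Fintype.bijective_iff_injective_and_card]
  refine ⟨emb_inj φ H, ?_⟩
  rw [NumberField.Embeddings.card, card_quot, Nat.card_eq_fintype_card]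

lemma real_iff (c : K ≃ₐ[ℚ] K) (hc : ∀ x, φ (c x) = (starRingEnd ℂ) (φ x))
    (q : (K ≃ₐ[ℚ] K) ⧸ H) : ComplexEmbedding.IsReal (emb φ H q) ↔ c • q = q := by
  induction q using QuotientGroup.induction_on with
  | H g =>
    have h0 : c • (g : (K ≃ₐ[ℚ] K) ⧸ H) = ((c * g : K ≃ₐ[ℚ] K) : (K ≃ₐ[ℚ] K) ⧸ H) := rfl
    rw [h0, ← (emb_inj φ H).eq_iff, ComplexEmbedding.isReal_iff]
    constructor
    · intro h
      ext x
      rw [emb_apply, AlgEquiv.mul_apply, hc]
      have h1 := RingHom.congr_fun h x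
      rw [ComplexEmbedding.conjugate_coe_eq, emb_apply] at h1
      rw [emb_apply]
      exact h1
    · intro h
      ext x
      have h1 := RingHom.congr_fun h x
      rw [emb_apply, AlgEquiv.mul_apply, hc, emb_apply] at h1
      rw [ComplexEmbedding.conjugate_coe_eq, emb_apply]
      exact h1

end

/-- AC -/
theorem ac : T_AC := by
  intro R
  obtain ⟨φ⟩ : Nonempty (R.K →+* ℂ) := inferInstance
  obtain ⟨c, hc⟩ := exists_conj φ
  refine ⟨c, ?_, fun H => ⟨?_, ?_⟩⟩
  · ext x
    apply φ.injective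
    rw [AlgEquiv.mul_apply, hc, hc, Complex.conj_conj]
    rfl
  · classical
    unfold pc
    rw [show nrRealPlaces (FF R H) = _ from (Fintype.card_congr (mkReal (K := FF R H))).symm,
      ← Nat.card_eq_fintype_card]
    refine Nat.card_congr ((Equiv.subtypeEquiv (Equiv.ofBijective _ (emb_bij φ H)) ?_).symm)
    intro q
    exact (real_iff φ H c hc q).symm
  · rw [card_quot]
    unfold pc
    refine (Nat.card_congr (Equiv.subtypeUnivEquiv ?_)).symm
    intro q
    exact one_smul _ q

end Pool.Agent.H29.HK
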