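import Pool.Agent.H25.HK.Targets

/-!
# HK project: AI (Artin induction for rational characters)
-/

set_option autoImplicit false
set_option linter.unusedSectionVars false

open Polynomial

namespace Pool.Agent.H29.HK

open Pool.Agent.H25.HK

section power

variable {V : Type} [AddCommGroup V] [Module ℂ V] [FiniteDimensional ℂ V]

/-- the projections to the eigenspaces of an endomorphism of finite order -/
noncomputable def prj (A : Module.End ℂ V) (m : ℕ) (ζ : ℂ) (a : ℕ) : Module.End ℂ V :=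
  (m : ℂ)⁻¹ • ∑ k ∈ Finset.range m, ((ζ ^ a)⁻¹ ^ k) • A ^ k

lemma mul_prj (A : Module.End ℂ V) (m : ℕ) (hA : A ^ m = 1) (ζ : ℂ)
    (hζ : IsPrimitiveRoot ζ m) (hm : 0 < m) (a : ℕ) : A * prj A m ζ a = ζ ^ a • prj A m ζ a := by
  have hζ0 : ζ ^ a ≠ 0 := pow_ne_zero _ (hζ.ne_zero hm.ne')
  have h1 : ∑ k ∈ Finset.range m, ((ζ ^ a)⁻¹ ^ (k + 1)) • A ^ (k + 1) =
      ∑ k ∈ Finset.range m, ((ζ ^ a)⁻¹ ^ k) • A ^ k := by
    have h2 := Finset.sum_range_succ' (fun k => ((ζ ^ a)⁻¹ ^ k) • A ^ k) m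
    have h3 := Finset.sum_range_succ (fun k => ((ζ ^ a)⁻¹ ^ k) • A ^ k) m
    rw [h3] at h2
    have h4 : (ζ ^ a)⁻¹ ^ m = 1 := by
      rw [inv_pow, ← pow_mul, mul_comm, pow_mul, hζ.pow_eq_one, one_pow, inv_one]
    simp only [h4, hA, pow_zero] at h2
    exact (add_right_cancel h2).symm
  unfold prj
  rw [mul_smul_comm, smul_comm (ζ ^ a), Finset.mul_sum, ← h1, Finset.smul_sum (r := ζ ^ a)]
  congr 1
  refine Finset.sum_congr rfl fun k _ => ?_
  rw [mul_smul_comm, ← pow_succ', smul_smul, pow_succ' (ζ ^ a)⁻¹, ← mul_assoc,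
    mul_inv_cancel₀ hζ0, one_mul]

lemma pow_mul_prj (A : Module.End ℂ V) (m : ℕ) (hA : A ^ m = 1) (ζ : ℂ)
    (hζ : IsPrimitiveRoot ζ m) (hm : 0 < m) (a k : ℕ) :
    A ^ k * prj A m ζ a = (ζ ^ a) ^ k • prj A m ζ a := by
  induction k with
  | zero => simp
  | succ k ih =>
    rw [pow_succ', mul_assoc, ih, mul_smul_comm, mul_prj A m hA ζ hζ hm, smul_smul, ← pow_succ]

lemma prj_idem (A : Module.End ℂ V) (m : ℕ) (hA : A ^ m = 1) (ζ : ℂ)
    (hζ : IsPrimitiveRoot ζ m) (hm : 0 < m) (a : ℕ) :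
    prj A m ζ a * prj A m ζ a = prj A m ζ a := by
  have hζ0 : ζ ^ a ≠ 0 := pow_ne_zero _ (hζ.ne_zero hm.ne')
  have hm0 : (m : ℂ) ≠ 0 := Nat.cast_ne_zero.2 hm.ne'
  conv_lhs => enter [1]; unfold prj
  rw [smul_mul_assoc, Finset.sum_mul]
  have : ∀ k ∈ Finset.range m, ((ζ ^ a)⁻¹ ^ k • A ^ k) * prj A m ζ a = prj A m ζ a := by
    intro k _
    rw [smul_mul_assoc, pow_mul_prj A m hA ζ hζ hm, smul_smul, inv_pow,
      inv_mul_cancel₀ (pow_ne_zero _ hζ0), one_smul]
  rw [Finset.sum_congr rfl this, Finset.sum_const, Finset.card_range, ← Nat.cast_smul_eq_nsmul ℂ,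
    smul_smul, inv_mul_cancel₀ hm0, one_smul]

lemma sum_prj (A : Module.End ℂ V) (m : ℕ) (ζ : ℂ)
    (hζ : IsPrimitiveRoot ζ m) (hm : 0 < m) : ∑ a ∈ Finset.range m, prj A m ζ a = 1 := by
  have hm0 : (m : ℂ) ≠ 0 := Nat.cast_ne_zero.2 hm.ne'
  unfold prj
  rw [← Finset.smul_sum, Finset.sum_comm]
  have h : ∀ k ∈ Finset.range m, ∑ a ∈ Finset.range m, ((ζ ^ a)⁻¹ ^ k) • A ^ k =
      if k = 0 then (m : ℂ) • (1 : Module.End ℂ V) else 0 := by
    intro k hk
    rw [← Finset.sum_smul]
    split_ifs with h0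
    · subst h0
      simp
    · have h1 : (ζ ^ k)⁻¹ ≠ 1 := by
        rw [ne_eq, inv_eq_one]
        exact hζ.pow_ne_one_of_pos_of_lt h0 (Finset.mem_range.1 hk)
      have h2 : ∑ a ∈ Finset.range m, ((ζ ^ a)⁻¹ ^ k) = 0 := by
        have h3 : ∀ a ∈ Finset.range m, ((ζ ^ a)⁻¹ ^ k) = ((ζ ^ k)⁻¹) ^ a := by
          intro a _
          rw [inv_pow, inv_pow, ← pow_mul, ← pow_mul, mul_comm]
        rw [Finset.sum_congr rfl h3]
        have h4 := geom_sum_mul ((ζ ^ k)⁻¹) m
        rw [inv_pow, ← pow_mul, mul_comm k m, pow_mul, hζ.pow_eq_one, one_pow, inv_one,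
          sub_self] at h4
        exact (mul_eq_zero.1 h4).resolve_right (sub_ne_zero.2 h1)
      rw [h2, zero_smul]
  rw [Finset.sum_congr rfl h, Finset.sum_ite_eq' (Finset.range m) 0, if_pos (Finset.mem_range.2 hm),
    smul_smul, inv_mul_cancel₀ hm0, one_smul]

lemma trace_idem (P : Module.End ℂ V) (hP : P * P = P) :
    ∃ n : ℕ, LinearMap.trace ℂ V P = n := by
  have h : LinearMap.IsProj (LinearMap.range P) P := by
    constructor
    · intro x
      exact LinearMap.mem_range_self P x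
    · rintro _ ⟨x, rfl⟩
      exact LinearMap.congr_fun hP x
  exact ⟨_, h.trace⟩

/-- a rational trace is invariant under powers prime to the order -/
lemma trace_pow_coprime (A : Module.End ℂ V) (m : ℕ) (hm : 0 < m) (hA : A ^ m = 1) (q : ℚ)
    (hq : LinearMap.trace ℂ V A = q) (j : ℕ) (hj : j.Coprime m) :
    LinearMap.trace ℂ V (A ^ j) = q := by
  set ζ : ℂ := Complex.exp (2 * Real.pi * Complex.I / m) with hζd
  have hζ : IsPrimitiveRoot ζ m := Complex.isPrimitiveRoot_exp m hm.ne'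
  choose n hn using fun a => trace_idem (prj A m ζ a) (prj_idem A m hA ζ hζ hm a)
  have htr : ∀ k : ℕ, LinearMap.trace ℂ V (A ^ k) = ∑ a ∈ Finset.range m, (n a : ℂ) * (ζ ^ k) ^ a := by
    intro k
    have h1 : A ^ k = ∑ a ∈ Finset.range m, (ζ ^ a) ^ k • prj A m ζ a := by
      rw [← mul_one (A ^ k), ← sum_prj A m ζ hζ hm, Finset.mul_sum]
      exact Finset.sum_congr rfl fun a _ => pow_mul_prj A m hA ζ hζ hm a k
    rw [h1, map_sum]
    refine Finset.sum_congr rfl fun a _ => ?_
    rw [map_smul, hn, smul_eq_mul, mul_comm, ← pow_mul, ← pow_mul, mul_comm a k]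
  set Q : ℚ[X] := ∑ a ∈ Finset.range m, C (n a : ℚ) * X ^ a - C q with hQ
  have hev : ∀ z : ℂ, aeval z Q = ∑ a ∈ Finset.range m, (n a : ℂ) * z ^ a - q := by
    intro z
    rw [hQ]
    simp
  have h1 : aeval ζ Q = 0 := by
    rw [hev, sub_eq_zero]
    have := htr 1
    rw [pow_one, pow_one, hq] at this
    exact this.symm
  have h2 : minpoly ℚ ζ ∣ Q := minpoly.dvd _ _ h1
  have hζj : IsPrimitiveRoot (ζ ^ j) m := hζ.pow_of_coprime j hj
  rw [← cyclotomic_eq_minpoly_rat hζ hm, cyclotomic_eq_minpoly_rat hζj hm] at h2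
  have h3 : aeval (ζ ^ j) Q = 0 := by
    obtain ⟨R, hR⟩ := h2
    rw [hR, map_mul, minpoly.aeval, zero_mul]
  rw [hev, sub_eq_zero] at h3
  rw [htr j, h3]

end power

/-- Moebius inversion from above -/
lemma exists_weights {α : Type} [PartialOrder α] [Fintype α] [DecidableLE α] (φ : α → ℚ) :
    ∃ w : α → ℚ, ∀ d, ∑ h ∈ Finset.univ.filter (fun h => d ≤ h), w h = φ d := by
  classical
  have hwf : WellFounded ((· > ·) : α → α → Prop) := wellFounded_gt
  set w : α → ℚ := hwf.fix (fun d ih => φ d - ∑ h : {h : α // h > d}, ih h.1 h.2) with hw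
  refine ⟨w, fun d => ?_⟩
  have h1 : w d = φ d - ∑ h : {h : α // h > d}, w h.1 := by
    rw [hw, hwf.fix_eq]
  have h2 : Finset.univ.filter (fun h => d ≤ h) =
      insert d (Finset.univ.filter (fun h => h > d)) := by
    ext h
    simp only [Finset.mem_filter, Finset.mem_univ, true_and, Finset.mem_insert, gt_iff_lt]
    rw [le_iff_eq_or_lt]
    constructor
    · rintro (h | h)
      · exact Or.inl h.symm
      · exact Or.inr h
    · rintro (h | h)
      · exact Or.inl h.symm
      · exact Or.inr h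
  rw [h2, Finset.sum_insert (by simp), h1]
  have h3 : ∑ h : {h : α // h > d}, w h.1 = ∑ h ∈ Finset.univ.filter (fun h => h > d), w h := by
    rw [← Finset.sum_subtype_eq_sum_filter]
    simp
  rw [h3]
  ring

section grp

variable {G : Type} [Group G] [Finite G]

lemma card_conj (H : Subgroup G) (h : G) :
    Nat.card {x : G // x⁻¹ * h * x ∈ H} = Nat.card H * pc H h := by
  classical
  have e : {x : G // x⁻¹ * h * x ∈ H} ≃ H × {x : G ⧸ H // h • x = x} := by
    have key : ∀ x : G, x⁻¹ * h * x ∈ H ↔ h • (x : G ⧸ H) = (x : G ⧸ H) := by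
      intro x
      have : h • (x : G ⧸ H) = ((h * x : G) : G ⧸ H) := rfl
      rw [this, eq_comm, QuotientGroup.eq, mul_assoc]
    refine Equiv.trans (Equiv.subtypeEquiv (Subgroup.groupEquivQuotientProdSubgroup (s := H))
      (q := fun y => h • y.1 = y.1) ?_) ?_
    · intro x
      rw [key]
      rfl
    · exact {
        toFun := fun y => (y.1.2, ⟨y.1.1, y.2⟩)
        invFun := fun y => ⟨(y.2.1, y.1), y.2.2⟩
        left_inv := fun y => rfl
        right_inv := fun y => rfl }
  rw [Nat.card_congr e, Nat.card_prod]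
  rfl

end grp

/-- AI -/
theorem ai : T_AI := by
  intro G _ _ V _ _ _ ρ hρ
  classical
  have := Fintype.ofFinite G
  have := Fintype.ofFinite (Subgroup G)
  choose f hf using hρ
  -- values on generators
  have hgen : ∀ y z : G, Subgroup.zpowers y = Subgroup.zpowers z → f y = f z := by
    intro y z hyz
    have hz : z ∈ Subgroup.zpowers y := by
      rw [hyz]
      exact Subgroup.mem_zpowers z
    have hz' : z ∈ Submonoid.powers y := by
      rw [mem_powers_iff_mem_zpowers]
      exact hz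
    obtain ⟨j, hj⟩ := hz'
    simp only at hj
    have hord : orderOf z = orderOf y := by
      rw [← Nat.card_zpowers, ← Nat.card_zpowers, hyz]
    have hpos : 0 < orderOf y := orderOf_pos y
    have hcop : j.Coprime (orderOf y) := by
      rw [← hj, orderOf_pow] at hord
      have h1 : Nat.gcd (orderOf y) j = 1 := by
        have h2 := Nat.div_eq_self.1 hord
        rcases h2 with h2 | h2
        · exact absurd h2 hpos.ne'
        · exact h2
      exact (Nat.coprime_comm.1 h1)
    have hA : ρ y ^ orderOf y = 1 := by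
      rw [← map_pow, pow_orderOf_eq_one, map_one]
    have h1 := trace_pow_coprime (ρ y) (orderOf y) hpos hA (f y) (hf y) j hcop
    rw [← map_pow, hj, hf z] at h1
    exact_mod_cast h1.symm
  have hcls : ∀ x h : G, f (x⁻¹ * h * x) = f h := by
    intro x h
    have h1 : LinearMap.trace ℂ V (ρ (x⁻¹ * h * x)) = LinearMap.trace ℂ V (ρ h) := by
      rw [map_mul, LinearMap.trace_mul_comm, ← map_mul]
      congr 2
      group
    rw [hf, hf] at h1
    exact_mod_cast h1
  -- the weights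
  set φ : Subgroup G → ℚ := fun D =>
    if h : ∃ y, Subgroup.zpowers y = D then f h.choose else 0 with hφ
  have hφy : ∀ y, φ (Subgroup.zpowers y) = f y := by
    intro y
    have h : ∃ z, Subgroup.zpowers z = Subgroup.zpowers y := ⟨y, rfl⟩
    simp only [hφ]
    rw [dif_pos h]
    exact hgen _ _ h.choose_spec
  obtain ⟨w, hw⟩ := exists_weights φ
  have hw' : ∀ y, f y = ∑ H : Subgroup G, if y ∈ H then w H else 0 := by
    intro y
    rw [← hφy y, ← hw, Finset.sum_filter]
    refine Finset.sum_congr rfl fun H _ => ?_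
    simp only [Subgroup.zpowers_le]
  have hcard : (Fintype.card G : ℚ) ≠ 0 := Nat.cast_ne_zero.2 Fintype.card_ne_zero
  set v : Subgroup G → ℚ := fun H => w H * Nat.card H / Fintype.card G with hv
  have hfv : ∀ h, f h = ∑ H : Subgroup G, v H * pc H h := by
    intro h
    have h1 : (Fintype.card G : ℚ) * f h = ∑ x : G, f (x⁻¹ * h * x) := by
      simp only [hcls, Finset.sum_const, Finset.card_univ, nsmul_eq_mul]
    have h2 : ∑ x : G, f (x⁻¹ * h * x) = ∑ H : Subgroup G, w H * (Nat.card H * pc H h) := by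
      simp only [hw']
      rw [Finset.sum_comm]
      refine Finset.sum_congr rfl fun H _ => ?_
      rw [← Finset.sum_filter, Finset.sum_const, nsmul_eq_mul, mul_comm]
      congr 1
      rw [← Nat.cast_mul, ← card_conj H h, Nat.card_eq_fintype_card, Fintype.card_subtype]
    rw [h2] at h1
    have h3 : f h = (∑ H : Subgroup G, w H * (Nat.card H * pc H h)) / Fintype.card G := by
      rw [← h1]
      field_simp
    rw [h3, Finset.sum_div]
    refine Finset.sum_congr rfl fun H _ => ?_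
    rw [hv]
    ring
  refine ⟨∏ H : Subgroup G, (v H).den, Finset.univ,
    fun H => (v H).num * ∏ H' ∈ Finset.univ.erase H, ((v H').den : ℤ), ?_, ?_⟩
  · exact Nat.one_le_iff_ne_zero.2 (Finset.prod_ne_zero_iff.2 fun H _ => (v H).den_nz)
  · intro g
    rw [hf, hfv]
    have key : ∀ H : Subgroup G, (((∏ H : Subgroup G, (v H).den : ℕ) : ℚ)) * v H =
        (((v H).num * ∏ H' ∈ Finset.univ.erase H, ((v H').den : ℤ) : ℤ) : ℚ) := by
      intro H
      rw [← Finset.mul_prod_erase Finset.univ _ (Finset.mem_univ H)]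
      push_cast
      have := Rat.den_mul_eq_num (v H)
      rw [← this]
      ring
    have hQ : (((∏ H : Subgroup G, (v H).den : ℕ) : ℚ)) * (∑ H : Subgroup G, v H * pc H g) =
        ∑ H : Subgroup G, (((v H).num * ∏ H' ∈ Finset.univ.erase H, ((v H').den : ℤ) : ℤ) : ℚ) *
          (pc H g : ℚ) := by
      rw [Finset.mul_sum]
      refine Finset.sum_congr rfl fun H _ => ?_
      rw [← mul_assoc, key]
    exact_mod_cast congrArg (fun x : ℚ => (x : ℂ)) hQ

end Pool.Agent.H29.HK
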